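import Pool.Agent.LE.StmtsC
import Pool.Agent.Helper59_LE.Detx
import Pool.Agent.Helper3_LE.ConA
import Pool.Agent.Helper46_LE.Fvd

/-!
# UPD: one direction in which the cost is at most `κ₀` with probability near one
-/

set_option autoImplicit false
set_option linter.unusedSectionVars false

open MeasureTheory ProbabilityTheory Function

open scoped ENNReal BigOperators

noncomputable section

namespace Pool.Agent.LE.H17C

open Pool.Agent.Anderson Pool.Agent.Loc Pool.Agent.Mob Pool.Agent.Helper54.Bal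
  Pool.Agent.Mob.H75 Pool.Agent.LE
open Pool.Agent.LE.H83A (big sd_sm sd_sm_eq sm_add sd_zero_add DL_comm)

variable {d : ℕ}

theorem gr_of_DL {V : Site d → ℝ} {Λ : Finset (Site d)} {E c : ℝ} {x y : Site d}
    (h : gr V Λ E x y ≠ 0) (h1 : DL Λ E V x y ≤ c) : Real.exp (-c) ≤ |gr V Λ E x y| := by
  unfold DL at h1
  rw [← Real.exp_log (abs_pos.2 h)]
  exact Real.exp_le_exp.2 (by linarith)

theorem DL_of_gr {V : Site d → ℝ} {Λ : Finset (Site d)} {E c : ℝ} {x y : Site d}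
    (h1 : Real.exp (-c) ≤ |gr V Λ E x y|) : DL Λ E V x y ≤ c := by
  unfold DL
  have h2 := Real.log_le_log (Real.exp_pos _) h1
  rw [Real.log_exp] at h2
  linarith

/-- locality near the base point -/
def LocAt (V : Site d → ℝ) (N L₁ L₂ : ℕ) (κ₀ E : ℝ) (a : Site d) : Prop :=
  ∀ b x : Site d, sd a b ≤ 3 * L₂ → sd b x ≤ L₁ →
    |gr V (box 0 N) E b x - gr V (box b L₂) E b x| ≤ Real.exp (-(κ₀ + 1) * L₁) / 2

/-- the first step -/
theorem step1 [NeZero d] {η κ' κ₀ : ℝ} {K N Q₁ ℓ L₀ : ℕ} {V : Site d → ℝ} {a : Site d} {E : ℝ}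
    (hη : 0 < η) (hK : 8 ≤ K) (h16 : 16 * η * K ≤ 1)
    (hbig : ∀ L : ℕ, L₀ ≤ L →
      1 + 2 * d * (2 * L + 1) ^ d * Real.exp (η * L) ≤ Real.exp (2 * η * L))
    (hQ : 1 ≤ Q₁) (hℓ : 1 ≤ ℓ) (hL₀ : L₀ ≤ Q₁ * ℓ)
    (hsub : box a (12 * (K * Q₁ * ℓ)) ⊆ box 0 N) (hG : GoodU V N (K * Q₁) ℓ a E η)
    (hS : SG V (Q₁ * ℓ) κ' E a) (hloc : LocAt V N (Q₁ * ℓ) (K * Q₁ * ℓ) κ₀ E a)
    (hn : ¬ SG V (Q₁ * ℓ) κ₀ E a) :
    ∃ y : Site d, sd 0 y = Q₁ ∧ Real.exp (-(κ₀ * (Q₁ * ℓ) + 4 * (η * (K * Q₁ * ℓ)))) / 2 ≤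
      |gr V (box a (K * Q₁ * ℓ)) E a (a + sm ℓ y)| := by
  obtain ⟨g1, g2, g3, g4, g5, g6⟩ := hG
  push_cast at g2 g3 g4 g5 g6
  have hL1 : 1 ≤ Q₁ * ℓ := Nat.mul_pos hQ hℓ
  have hL2 : 8 * (Q₁ * ℓ) ≤ K * Q₁ * ℓ := by
    rw [mul_assoc K]
    exact Nat.mul_le_mul_right _ hK
  obtain ⟨L1, hL1d⟩ : ∃ L1 : ℕ, L1 = Q₁ * ℓ := ⟨_, rfl⟩
  obtain ⟨L2, hL2d⟩ : ∃ L2 : ℕ, L2 = K * Q₁ * ℓ := ⟨_, rfl⟩
  have hL1r : (L1 : ℝ) = Q₁ * ℓ := by rw [hL1d]; push_cast; ring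
  have hL2r : (L2 : ℝ) = K * Q₁ * ℓ := by rw [hL2d]; push_cast; ring
  have hKL : (L2 : ℝ) = K * L1 := by rw [hL2r, hL1r]; ring
  rw [← hL1d] at hL1 hL2 hL₀ hS hloc hn
  rw [← hL2d] at hL2 hsub hloc ⊢
  rw [← hL1r, ← hL2r]
  rw [← hL2r, ← hL2d] at g2 g3
  rw [← hL2r] at g4 g5 g6
  rw [← hL2d] at g6
  have hL1R : (1 : ℝ) ≤ L1 := by exact_mod_cast hL1
  have haa : ∀ {n : ℕ}, a ∈ box a n := fun {n} => mem_box.2 (by rw [sd_self]; omega)
  -- a site with a large Green function in the small cube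
  have hn' : ∃ u, sd a u = L1 ∧ Real.exp (-κ₀ * L1) < |gr V (box a L1) E a u| := by
    by_contra hcon
    apply hn
    refine ⟨hS.1, fun u hu => ?_⟩
    by_contra h1
    exact hcon ⟨u, hu, not_le.1 h1⟩
  obtain ⟨u, hu, hgu⟩ := hn'
  have hT : (0 : ℝ) ≤ Real.exp (η * L2) := (Real.exp_pos _).le
  have hsub2 : box a (L1 + 1) ⊆ box a (12 * L2) := box_mono a (by omega)
  have hf := (Pool.Agent.LE.H46.fvd d V (box 0 N) a L1 E (Real.exp (η * L2))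
    (Real.exp (-(κ₀ * L1 + 2 * (η * L2)))) hT (Real.exp_pos _).le (hsub2.trans hsub) g1 hS.1
    (g6 L1 (by omega) a haa).2 (fun x hx y hy => (g2 x (hsub2 hx) y (hsub2 hy)).2)).2
  have hfac : 1 + 2 * d * (2 * (L1 : ℝ) + 1) ^ d * Real.exp (η * L2) ≤
      Real.exp (2 * (η * L2)) := by
    have h1 := hbig L2 (by omega)
    have h2 : (2 * (L1 : ℝ) + 1) ^ d ≤ (2 * (L2 : ℝ) + 1) ^ d := by
      apply pow_le_pow_left₀ (by positivity)
      have h3 : (L1 : ℝ) ≤ L2 := by exact_mod_cast (by omega : L1 ≤ L2)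
      linarith
    have h3 : 2 * (d : ℝ) * (2 * (L1 : ℝ) + 1) ^ d * Real.exp (η * L2) ≤
        2 * d * (2 * (L2 : ℝ) + 1) ^ d * Real.exp (η * L2) := by gcongr
    have h4 : 2 * (η * (L2 : ℝ)) = 2 * η * L2 := by ring
    rw [h4]
    linarith
  obtain ⟨u', hu', hgu'⟩ : ∃ u', (sd a u' = L1 ∨ sd a u' = L1 + 1) ∧
      Real.exp (-(κ₀ * L1 + 2 * (η * L2))) < |gr V (box 0 N) E a u'| := by
    by_contra hcon
    have h1 := hf (fun u' hu' => by
      by_contra h2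
      exact hcon ⟨u', hu', not_le.1 h2⟩) u hu
    have h2 : (1 + 2 * d * (2 * (L1 : ℝ) + 1) ^ d * Real.exp (η * L2)) *
        Real.exp (-(κ₀ * L1 + 2 * (η * L2))) ≤ Real.exp (-κ₀ * L1) := by
      refine (mul_le_mul_of_nonneg_right hfac (Real.exp_pos _).le).trans (le_of_eq ?_)
      rw [← Real.exp_add]
      congr 1
      ring
    linarith
  have hD1 := DL_of_gr hgu'.le
  have hlL : ℓ ≤ Q₁ * ℓ := Nat.le_mul_of_pos_left ℓ hQ
  obtain ⟨y, hy, hyu⟩ := H59.exY2 (Q := Q₁) hℓ a u' (by rw [← hL1d]; omega)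
    (by rw [← hL1d]; omega)
  have hay : sd a (a + sm ℓ y) ≤ L1 := by
    have h1 := sd_sm ℓ a y
    rw [hy] at h1
    rw [hL1d, mul_comm Q₁]
    exact h1
  have hu12 : u' ∈ box a (12 * L2) := mem_box.2 (by omega)
  have hy12 : a + sm ℓ y ∈ box a (12 * L2) := mem_box.2 (by omega)
  have hQK : Q₁ ≤ K * Q₁ := Nat.le_mul_of_pos_left Q₁ (by omega)
  have hD2 := g4 y (mem_box.2 (by omega)) u' (mem_box.2 (by omega))
  have hD3 := g3 a haa u' hu12 (a + sm ℓ y) hy12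
  rw [DL_comm (box 0 N) E V u' (a + sm ℓ y)] at hD3
  have hD4 : DL (box 0 N) E V a (a + sm ℓ y) ≤ κ₀ * L1 + 4 * (η * L2) := by linarith
  have hgN := gr_of_DL (g2 a haa (a + sm ℓ y) hy12).1 hD4
  refine ⟨y, hy, ?_⟩
  have hl := hloc a (a + sm ℓ y) (by rw [sd_self]; omega) hay
  have h1 : Real.exp (-(κ₀ + 1) * L1) ≤ Real.exp (-(κ₀ * L1 + 4 * (η * L2))) := by
    apply Real.exp_le_exp.2
    rw [hKL]
    have : 16 * η * K * L1 ≤ 1 * L1 := mul_le_mul_of_nonneg_right h16 (by linarith)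
    linarith only [this, (Nat.cast_nonneg L1 : (0 : ℝ) ≤ L1)]
  have h2 := abs_sub_abs_le_abs_sub (gr V (box 0 N) E a (a + sm ℓ y))
    (gr V (box a L2) E a (a + sm ℓ y))
  linarith

/-- the second step -/
theorem step2 [NeZero d] {η κ₀ : ℝ} {K N Q₁ ℓ : ℕ} {V : Site d → ℝ} {a : Site d} {E : ℝ}
    (hη : 0 < η) (hK : 8 ≤ K) (h16 : 16 * η * K ≤ 1)
    (hQ : 1 ≤ Q₁) (hℓ : 1 ≤ ℓ) (hL₀ : 1 ≤ η * (Q₁ * ℓ))
    (hG : GoodU V N (K * Q₁) ℓ a E η)
    (hloc : LocAt V N (Q₁ * ℓ) (K * Q₁ * ℓ) κ₀ E a) {y k : Site d} (hy : sd 0 y = Q₁)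
    (hk : sd 0 k ≤ 2 * (K * Q₁) + 1)
    (hA : Real.exp (-(κ₀ * (Q₁ * ℓ) + 4 * (η * (K * Q₁ * ℓ)))) / 2 ≤
      |gr V (box a (K * Q₁ * ℓ)) E a (a + sm ℓ y)|) :
    Real.exp (-(κ₀ * (Q₁ * ℓ) + 7 * (η * (K * Q₁ * ℓ)))) ≤
      |gr V (box (a + sm ℓ k) (K * Q₁ * ℓ)) E (a + sm ℓ k) (a + sm ℓ k + sm ℓ y)| := by
  obtain ⟨g1, g2, g3, g4, g5, g6⟩ := hG
  push_cast at g2 g3 g4 g5 g6
  have hL1 : 1 ≤ Q₁ * ℓ := Nat.mul_pos hQ hℓ
  have hL2 : 8 * (Q₁ * ℓ) ≤ K * Q₁ * ℓ := by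
    rw [mul_assoc K]
    exact Nat.mul_le_mul_right _ hK
  have hQK : Q₁ ≤ K * Q₁ := Nat.le_mul_of_pos_left Q₁ (by omega)
  have hlL : ℓ ≤ Q₁ * ℓ := Nat.le_mul_of_pos_left ℓ hQ
  have hak0 : sd a (a + sm ℓ k) ≤ 2 * (K * Q₁ * ℓ) + ℓ := by
    calc sd a (a + sm ℓ k) ≤ ℓ * sd 0 k := sd_sm ℓ a k
      _ ≤ ℓ * (2 * (K * Q₁) + 1) := Nat.mul_le_mul_left ℓ hk
      _ = _ := by ring
  obtain ⟨L1, hL1d⟩ : ∃ L1 : ℕ, L1 = Q₁ * ℓ := ⟨_, rfl⟩
  obtain ⟨L2, hL2d⟩ : ∃ L2 : ℕ, L2 = K * Q₁ * ℓ := ⟨_, rfl⟩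
  have hL1r : (L1 : ℝ) = Q₁ * ℓ := by rw [hL1d]; push_cast; ring
  have hL2r : (L2 : ℝ) = K * Q₁ * ℓ := by rw [hL2d]; push_cast; ring
  have hKL : (L2 : ℝ) = K * L1 := by rw [hL2r, hL1r]; ring
  rw [← hL1r] at hL₀
  rw [← hL1d] at hL1 hL2 hloc hlL
  rw [← hL2d] at hL2 hloc hA ⊢ hak0
  rw [← hL1r, ← hL2r] at hA ⊢
  rw [← hL2r, ← hL2d] at g2 g3
  rw [← hL2r] at g4 g5 g6
  have hL1R : (1 : ℝ) ≤ L1 := by exact_mod_cast hL1
  have haa : ∀ {n : ℕ}, a ∈ box a n := fun {n} => mem_box.2 (by rw [sd_self]; omega)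
  have h16' : 16 * (η * L2) ≤ L1 := by
    rw [hKL]
    have : 16 * η * K * L1 ≤ 1 * L1 := mul_le_mul_of_nonneg_right h16 (Nat.cast_nonneg L1)
    linarith only [this]
  have h8 : 8 ≤ η * L2 := by
    rw [hKL]
    have hK' : (8 : ℝ) ≤ K := by exact_mod_cast hK
    have := mul_le_mul hK' hL₀ zero_le_one (Nat.cast_nonneg K)
    linarith only [this]
  have hL1big : (128 : ℝ) ≤ L1 := by linarith
  have hsm : ∀ b : Site d, sd b (b + sm ℓ y) ≤ L1 := by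
    intro b
    have h1 := sd_sm ℓ b y
    rw [hy] at h1
    rw [hL1d, mul_comm Q₁]
    exact h1
  have e4 : Real.exp (-(η * L2)) ≤ 1 / 4 := by
    have h1 : Real.exp (-(η * (L2 : ℝ))) ≤ Real.exp (-3) := Real.exp_le_exp.2 (by linarith)
    have h2 : (4 : ℝ) ≤ Real.exp 3 := by
      have := Real.add_one_le_exp (3 : ℝ)
      linarith
    have h3 : Real.exp (-3) * Real.exp 3 = 1 := by rw [← Real.exp_add]; simp
    have h5 := mul_le_mul_of_nonneg_left h2 (Real.exp_pos (-3 : ℝ)).le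
    linarith only [h1, h3, h5]
  -- at `a`
  have hl := hloc a (a + sm ℓ y) (by rw [sd_self]; omega) (hsm a)
  have hy12 : a + sm ℓ y ∈ box a (12 * L2) := mem_box.2 (by have := hsm a; omega)
  have hX : Real.exp (-(κ₀ + 1) * L1) ≤ Real.exp (-(κ₀ * L1 + 4 * (η * L2))) * (1 / 4) := by
    calc Real.exp (-(κ₀ + 1) * L1) ≤ Real.exp (-(κ₀ * L1 + 4 * (η * L2)) + -(η * L2)) :=
          Real.exp_le_exp.2 (by linarith only [h16', h8])
      _ = Real.exp (-(κ₀ * L1 + 4 * (η * L2))) * Real.exp (-(η * L2)) := Real.exp_add _ _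
      _ ≤ _ := mul_le_mul_of_nonneg_left e4 (Real.exp_pos _).le
  have hgN : Real.exp (-(κ₀ * L1 + 5 * (η * L2))) ≤ |gr V (box 0 N) E a (a + sm ℓ y)| := by
    have h2 := abs_sub_abs_le_abs_sub (gr V (box a L2) E a (a + sm ℓ y))
      (gr V (box 0 N) E a (a + sm ℓ y))
    rw [abs_sub_comm] at hl
    have h3 : Real.exp (-(κ₀ * L1 + 5 * (η * L2))) ≤
        Real.exp (-(κ₀ * L1 + 4 * (η * L2))) * (1 / 4) := by
      calc Real.exp (-(κ₀ * L1 + 5 * (η * L2))) =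
          Real.exp (-(κ₀ * L1 + 4 * (η * L2))) * Real.exp (-(η * L2)) := by
            rw [← Real.exp_add]
            congr 1
            ring
        _ ≤ _ := mul_le_mul_of_nonneg_left e4 (Real.exp_pos _).le
    have h4 := Real.exp_pos (-(κ₀ * (L1 : ℝ) + 4 * (η * L2)))
    linarith
  have hD1 := DL_of_gr hgN
  have hD2 := g5 k (mem_box.2 (by omega)) y (mem_box.2 (by omega))
  have hD3 : DL (box 0 N) E V (a + sm ℓ k) (a + sm ℓ k + sm ℓ y) ≤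
      κ₀ * L1 + 6 * (η * L2) := by
    have := (abs_le.1 hD2).1
    linarith
  have hsk := hsm (a + sm ℓ k)
  have htri := sd_triangle a (a + sm ℓ k) (a + sm ℓ k + sm ℓ y)
  have hb12 : a + sm ℓ k ∈ box a (12 * L2) := mem_box.2 (by omega)
  have hby12 : a + sm ℓ k + sm ℓ y ∈ box a (12 * L2) := mem_box.2 (by omega)
  have hgN2 := gr_of_DL (g2 _ hb12 _ hby12).1 hD3
  have hl2 := hloc (a + sm ℓ k) (a + sm ℓ k + sm ℓ y) (by omega) hsk
  have h2 := abs_sub_abs_le_abs_sub (gr V (box 0 N) E (a + sm ℓ k) (a + sm ℓ k + sm ℓ y))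
    (gr V (box (a + sm ℓ k) L2) E (a + sm ℓ k) (a + sm ℓ k + sm ℓ y))
  have hX6 : Real.exp (-(κ₀ + 1) * L1) ≤ Real.exp (-(κ₀ * L1 + 6 * (η * L2))) :=
    Real.exp_le_exp.2 (by linarith only [h16', h8])
  have h7 : Real.exp (-(κ₀ * L1 + 7 * (η * L2))) ≤
      Real.exp (-(κ₀ * L1 + 6 * (η * L2))) * (1 / 4) := by
    calc Real.exp (-(κ₀ * L1 + 7 * (η * L2))) =
        Real.exp (-(κ₀ * L1 + 6 * (η * L2))) * Real.exp (-(η * L2)) := by
          rw [← Real.exp_add]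
          congr 1
          ring
      _ ≤ _ := mul_le_mul_of_nonneg_left e4 (Real.exp_pos _).le
  have h6 := Real.exp_pos (-(κ₀ * L1 + 6 * (η * L2)))
  linarith

/-! ### probability -/

theorem measurable_lt (Λ : Finset (Site d)) (E c : ℝ) (x y : Site d) :
    MeasurableSet {V : Site d → ℝ | |gr V Λ E x y| < c} :=
  measurableSet_lt (measurable_gr _ _ _ _).abs measurable_const

theorem measurable_ge (Λ : Finset (Site d)) (E c : ℝ) (x y : Site d) :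
    MeasurableSet {V : Site d → ℝ | c ≤ |gr V Λ E x y|} :=
  measurableSet_le measurable_const (measurable_gr _ _ _ _).abs

theorem shift_lt (ν : Measure ℝ) [IsProbabilityMeasure ν] (b w : Site d) (L : ℕ) (E c : ℝ) :
    PP d ν {V : Site d → ℝ | |gr V (box b L) E b (b + w)| < c} =
      PP d ν {V : Site d → ℝ | |gr V (box 0 L) E 0 w| < c} := by
  rw [← (shiftInv_PP ν b).measure_preimage (measurable_lt (box 0 L) E c 0 w).nullMeasurableSet]
  refine congrArg (fun s => PP d ν s) (Set.ext fun V => ?_)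
  have h := H42.gr_tau V b (Λ := box b L) (Λ' := box 0 L) (fun z => by
    have := H42.mem_box_add 0 b L z
    rwa [zero_add] at this) E 0 w
  rw [Set.mem_preimage, Set.mem_ofPred_eq, Set.mem_ofPred_eq, h, zero_add, add_comm w b]

theorem shift_sg (ν : Measure ℝ) [IsProbabilityMeasure ν] (b : Site d) (L : ℕ) (m E : ℝ) :
    PP d ν {V : Site d → ℝ | SG V L m E b} = PP d ν {V : Site d → ℝ | SG V L m E 0} := by
  rw [← (shiftInv_PP ν b).measure_preimage (H3A.measurableSet_sg L m E 0).nullMeasurableSet]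
  refine congrArg (fun s => PP d ν s) (Set.ext fun V => ?_)
  have := H3A.sg_tau V b 0 L m E
  rw [zero_add] at this
  rw [Set.mem_preimage, Set.mem_ofPred_eq, Set.mem_ofPred_eq, this]

theorem shift_nsg (ν : Measure ℝ) [IsProbabilityMeasure ν] (b : Site d) (L : ℕ) (m E : ℝ) :
    PP d ν {V : Site d → ℝ | ¬ SG V L m E b} = PP d ν {V : Site d → ℝ | ¬ SG V L m E 0} := by
  have hm : MeasurableSet {V : Site d → ℝ | ¬ SG V L m E 0} := (H3A.measurableSet_sg L m E 0).compl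
  rw [← (shiftInv_PP ν b).measure_preimage hm.nullMeasurableSet]
  refine congrArg (fun s => PP d ν s) (Set.ext fun V => ?_)
  have := H3A.sg_tau V b 0 L m E
  rw [zero_add] at this
  rw [Set.mem_preimage, Set.mem_ofPred_eq, Set.mem_ofPred_eq, this]

theorem real_of_le {ν : Measure ℝ} [IsProbabilityMeasure ν] {S : Set (Site d → ℝ)} {p : ℝ}
    (hp : 0 ≤ p) (h : PP d ν S ≤ ENNReal.ofReal p) : (PP d ν).real S ≤ p := by
  unfold Measure.real
  exact ENNReal.toReal_le_of_le_ofReal hp h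

/-- UPD -/
theorem upd (upa : UpaStmt) (lox : LoxStmt) : UpdStmt := by
  intro d η κ' κ₀ K hd hη hκ' hκ₀ hK h24 h16 hKκ
  have : NeZero d := ⟨by omega⟩
  obtain ⟨L₁, hupa⟩ := upa d η κ' K hd hη hκ' hK h24
  obtain ⟨L₂, hlox⟩ := lox d η κ' κ₀ K hd hη hκ' hκ₀ hK h24 hKκ
  obtain ⟨L₃, _, hbig⟩ := big d η hη
  refine ⟨L₁ + L₂ + L₃ + ⌈1 / η⌉₊, ?_⟩
  intro σ E p N Q₁ ℓ a hσ hp hp8 hQ hℓ hL hsub H1 H2 H3
  have hL1 : 1 ≤ Q₁ * ℓ := Nat.mul_pos hQ hℓ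
  have hL2 : 8 * (Q₁ * ℓ) ≤ K * Q₁ * ℓ := by
    rw [mul_assoc K]
    exact Nat.mul_le_mul_right _ hK
  have hηL : 1 ≤ η * (Q₁ * ℓ) := by
    have h1 : (⌈1 / η⌉₊ : ℝ) ≤ Q₁ * ℓ := by
      exact_mod_cast (by omega : ⌈1 / η⌉₊ ≤ Q₁ * ℓ)
    have h2 := (Nat.le_ceil (1 / η)).trans h1
    rw [div_le_iff₀ hη] at h2
    linarith
  have e : K * (Q₁ * ℓ) = K * Q₁ * ℓ := (mul_assoc K Q₁ ℓ).symm
  have hloc : ∀ V : Site d → ℝ, GoodU V N (K * Q₁) ℓ a E η → SG V (Q₁ * ℓ) κ' E a →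
      LocAt V N (Q₁ * ℓ) (K * Q₁ * ℓ) κ₀ E a := by
    intro V hG hS b x hb hx
    have h1 := hlox V N (Q₁ * ℓ) b x E (by omega) (by
      rw [e]
      refine Finset.Subset.trans (fun z hz => ?_) hsub
      rw [mem_box] at hz ⊢
      have := sd_triangle a b z
      omega) hG.1 (by
      rw [e]
      exact hupa V N Q₁ ℓ a E hQ hℓ (by omega) hsub hG hS b (mem_box.2 (by omega)))
      (mem_box.2 hx) (by
      intro z hz
      have hz' : z ∈ box a (12 * (K * Q₁ * ℓ)) := by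
        rw [mem_box]
        have := sd_triangle a b z
        rw [hz, e] at this
        omega
      have hx' : x ∈ box a (12 * (K * Q₁ * ℓ)) := by
        rw [mem_box]
        have := sd_triangle a b x
        omega
      refine (hG.2.1 z hz' x hx').2.trans (le_of_eq ?_)
      push_cast
      congr 1
      ring)
    rw [e] at h1
    exact h1
  -- the good set
  obtain ⟨P, hP⟩ : ∃ P : Measure (Site d → ℝ), P = PP d (gl σ) := ⟨_, rfl⟩
  have hPprob : IsProbabilityMeasure P := by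
    rw [hP]
    infer_instance
  have hGA : P {V : Site d → ℝ | ¬ (GoodU V N (K * Q₁) ℓ a E η ∧ SG V (Q₁ * ℓ) κ' E a)} ≤
      ENNReal.ofReal (2 * p) := by
    calc P {V : Site d → ℝ | ¬ (GoodU V N (K * Q₁) ℓ a E η ∧ SG V (Q₁ * ℓ) κ' E a)} ≤
        P ({V | ¬ GoodU V N (K * Q₁) ℓ a E η} ∪ {V | ¬ SG V (Q₁ * ℓ) κ' E a}) := by
          apply measure_mono
          intro V hV
          by_cases h1 : GoodU V N (K * Q₁) ℓ a E η
          · exact Or.inr fun h2 => hV ⟨h1, h2⟩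
          · exact Or.inl h1
      _ ≤ _ := measure_union_le _ _
      _ ≤ ENNReal.ofReal p + ENNReal.ofReal p := by
          apply add_le_add
          · rw [hP]
            exact H1
          · rw [hP, shift_nsg]
            exact H2
      _ = ENNReal.ofReal (2 * p) := by
          rw [← ENNReal.ofReal_add hp hp]
          congr 1
          ring
  constructor
  · intro b
    rw [shift_nsg (gl σ) b, ← shift_nsg (gl σ) a, ← hP]
    refine (measure_mono ?_).trans hGA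
    intro V hV hV'
    exact hV (hupa V N Q₁ ℓ a E hQ hℓ (by omega) hsub hV'.1 hV'.2 a
      (mem_box.2 (by rw [sd_self]; omega)))
  -- pigeonhole
  obtain ⟨c, hc⟩ : ∃ c : ℝ, c = Real.exp (-(κ₀ * (Q₁ * ℓ) + 4 * (η * (K * Q₁ * ℓ)))) / 2 :=
    ⟨_, rfl⟩
  obtain ⟨F, hF⟩ : ∃ F : Finset (Site d), F = (box (0 : Site d) Q₁).filter
    (fun y => sd 0 y = Q₁) := ⟨_, rfl⟩
  have hcov : (Set.univ : Set (Site d → ℝ)) ⊆
      ({V : Site d → ℝ | ¬ (GoodU V N (K * Q₁) ℓ a E η ∧ SG V (Q₁ * ℓ) κ' E a)} ∪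
        {V | SG V (Q₁ * ℓ) κ₀ E a}) ∪
        ⋃ y ∈ F, {V | c ≤ |gr V (box a (K * Q₁ * ℓ)) E a (a + sm ℓ y)|} := by
    intro V _
    by_cases h1 : GoodU V N (K * Q₁) ℓ a E η ∧ SG V (Q₁ * ℓ) κ' E a
    · by_cases h2 : SG V (Q₁ * ℓ) κ₀ E a
      · exact Or.inl (Or.inr h2)
      · right
        obtain ⟨y, hy, hyg⟩ := step1 (L₀ := L₃) hη hK h16 hbig hQ hℓ (by omega) hsub h1.1 h1.2
          (hloc V h1.1 h1.2) h2
        rw [Set.mem_iUnion₂]
        refine ⟨y, ?_, ?_⟩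
        · rw [hF, Finset.mem_filter, mem_box]
          exact ⟨hy.le, hy⟩
        · rw [Set.mem_ofPred_eq, hc]
          exact hyg
    · exact Or.inl (Or.inl h1)
  have hsum : 1 / 2 ≤ ∑ y ∈ F,
      P.real {V | c ≤ |gr V (box a (K * Q₁ * ℓ)) E a (a + sm ℓ y)|} := by
    have h1 : (1 : ℝ) ≤ P.real ({V : Site d → ℝ | ¬ (GoodU V N (K * Q₁) ℓ a E η ∧
        SG V (Q₁ * ℓ) κ' E a)} ∪ {V | SG V (Q₁ * ℓ) κ₀ E a}) +
        P.real (⋃ y ∈ F, {V | c ≤ |gr V (box a (K * Q₁ * ℓ)) E a (a + sm ℓ y)|}) := by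
      calc (1 : ℝ) = P.real Set.univ := by simp
        _ ≤ _ := measureReal_mono hcov
        _ ≤ _ := measureReal_union_le _ _
    have h2 := measureReal_union_le (μ := P) {V : Site d → ℝ | ¬ (GoodU V N (K * Q₁) ℓ a E η ∧
        SG V (Q₁ * ℓ) κ' E a)} {V | SG V (Q₁ * ℓ) κ₀ E a}
    have h3 := measureReal_biUnion_finset_le (μ := P) F
      (fun y => {V : Site d → ℝ | c ≤ |gr V (box a (K * Q₁ * ℓ)) E a (a + sm ℓ y)|})
    have h4 : P.real {V : Site d → ℝ | ¬ (GoodU V N (K * Q₁) ℓ a E η ∧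
        SG V (Q₁ * ℓ) κ' E a)} ≤ 2 * p := by
      rw [hP] at hGA ⊢
      exact real_of_le (by linarith) hGA
    have h5 : P.real {V : Site d → ℝ | SG V (Q₁ * ℓ) κ₀ E a} ≤ 1 / 4 := by
      rw [hP]
      apply real_of_le (by norm_num)
      rw [shift_sg]
      exact H3
    linarith
  have hFne : F.Nonempty := by
    rw [Finset.nonempty_iff_ne_empty]
    intro h
    rw [h, Finset.sum_empty] at hsum
    norm_num at hsum
  have hcard : (F.card : ℝ) ≤ (2 * Q₁ + 1) ^ d := by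
    have h1 : F.card ≤ (box (0 : Site d) Q₁).card := by
      rw [hF]
      exact Finset.card_filter_le _ _
    rw [card_box] at h1
    exact_mod_cast h1
  have hFc : (0 : ℝ) < F.card := by exact_mod_cast Finset.card_pos.2 hFne
  obtain ⟨y, hyF, hyP⟩ := Finset.exists_le_of_sum_le hFne (f := fun _ => 1 / (2 * (F.card : ℝ)))
    (g := fun y => P.real {V | c ≤ |gr V (box a (K * Q₁ * ℓ)) E a (a + sm ℓ y)|}) (by
      rw [Finset.sum_const, nsmul_eq_mul]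
      refine le_trans (le_of_eq ?_) hsum
      field_simp)
  have hy : sd 0 y = Q₁ := by
    rw [hF, Finset.mem_filter] at hyF
    exact hyF.2
  refine ⟨y, hy, fun b => ?_⟩
  -- the second base point
  obtain ⟨i₀, _⟩ : ∃ i : Fin d, i = ⟨0, hd⟩ := ⟨_, rfl⟩
  obtain ⟨k, hk⟩ : ∃ k : Site d, k = (Pi.single i₀ (2 * (K * Q₁) + 1 : ℤ) : Site d) := ⟨_, rfl⟩
  have hk1 : sd 0 k ≤ 2 * (K * Q₁) + 1 := by
    rw [sd_le_iff]
    intro i
    rw [hk]
    push_cast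
    by_cases hi : i = i₀
    · subst hi
      rw [Pi.single_eq_same, Pi.zero_apply, zero_sub, abs_neg, abs_of_nonneg (by positivity)]
    · rw [Pi.single_eq_of_ne hi]
      simp only [Pi.zero_apply, sub_zero, abs_zero]
      positivity
  have hk2 : 2 * (K * Q₁) + 1 ≤ sd 0 k := by
    have h := sd_le_iff.1 (le_refl (sd (0 : Site d) k)) i₀
    rw [hk, Pi.single_eq_same, Pi.zero_apply, zero_sub, abs_neg, abs_of_nonneg (by positivity),
      ← hk] at h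
    exact_mod_cast h
  have hab : 2 * (K * Q₁ * ℓ) < sd a (a + sm ℓ k) := by
    rw [sd_sm_eq]
    calc 2 * (K * Q₁ * ℓ) < ℓ * (2 * (K * Q₁) + 1) := by
          have : ℓ * (2 * (K * Q₁) + 1) = 2 * (K * Q₁ * ℓ) + ℓ := by ring
          omega
      _ ≤ _ := Nat.mul_le_mul_left ℓ hk2
  have hdisj : Disjoint (box a (K * Q₁ * ℓ)) (box (a + sm ℓ k) (K * Q₁ * ℓ)) := by
    rw [Finset.disjoint_left]
    intro z hz1 hz2
    rw [mem_box] at hz1 hz2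
    have := sd_triangle a z (a + sm ℓ k)
    rw [sd_comm z (a + sm ℓ k)] at this
    omega
  obtain ⟨B, hB⟩ : ∃ B : Set (Site d → ℝ), B = {V : Site d → ℝ |
    |gr V (box (a + sm ℓ k) (K * Q₁ * ℓ)) E (a + sm ℓ k) (a + sm ℓ k + sm ℓ y)| <
      Real.exp (-(κ₀ + 7 * η * K) * (Q₁ * ℓ))} := ⟨_, rfl⟩
  obtain ⟨A, hA⟩ : ∃ A : Set (Site d → ℝ), A = {V : Site d → ℝ |
    c ≤ |gr V (box a (K * Q₁ * ℓ)) E a (a + sm ℓ y)|} := ⟨_, rfl⟩
  have hind : P (A ∩ B) = P A * P B := by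
    rw [hP]
    refine H6.PP_inter (gl σ) hdisj ?_ ?_ ?_ ?_
    · rw [hA]
      exact measurable_ge _ _ _ _ _
    · rw [hB]
      exact measurable_lt _ _ _ _ _
    · intro W W' h
      rw [hA, Set.mem_ofPred_eq, Set.mem_ofPred_eq, gr_congr h]
    · intro W W' h
      rw [hB, Set.mem_ofPred_eq, Set.mem_ofPred_eq, gr_congr h]
  have hABsub : A ∩ B ⊆ {V : Site d → ℝ | ¬ (GoodU V N (K * Q₁) ℓ a E η ∧
      SG V (Q₁ * ℓ) κ' E a)} := by
    rintro V ⟨hVA, hVB⟩ hgood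
    rw [hA, Set.mem_ofPred_eq, hc] at hVA
    rw [hB, Set.mem_ofPred_eq] at hVB
    have h1 := step2 hη hK h16 hQ hℓ hηL hgood.1 (hloc V hgood.1 hgood.2) hy hk1 hVA
    have h2 : -(κ₀ + 7 * η * K) * ((Q₁ : ℝ) * ℓ) =
        -(κ₀ * (Q₁ * ℓ) + 7 * (η * (K * Q₁ * ℓ))) := by ring
    rw [h2] at hVB
    exact absurd hVB (not_lt.2 h1)
  have hreal : P.real A * P.real B ≤ 2 * p := by
    have h1 : P.real (A ∩ B) ≤ 2 * p := by
      have h2 := (measure_mono hABsub).trans hGA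
      rw [hP] at h2 ⊢
      exact real_of_le (by linarith) h2
    have h3 : P.real (A ∩ B) = P.real A * P.real B := by
      unfold Measure.real
      rw [hind, ENNReal.toReal_mul]
    rwa [h3] at h1
  have hn : (0 : ℝ) < (2 * Q₁ + 1) ^ d := by positivity
  have hA1 : 1 / (2 * (2 * (Q₁ : ℝ) + 1) ^ d) ≤ P.real A := by
    rw [hA]
    refine le_trans ?_ hyP
    exact one_div_le_one_div_of_le (by positivity) (by linarith)
  have hB1 : P.real B ≤ 4 * (2 * (Q₁ : ℝ) + 1) ^ d * p := by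
    have h1 : 1 / (2 * (2 * (Q₁ : ℝ) + 1) ^ d) * P.real B ≤ 2 * p :=
      (mul_le_mul_of_nonneg_right hA1 measureReal_nonneg).trans hreal
    rw [one_div, inv_mul_le_iff₀ (by positivity)] at h1
    linarith
  have hB2 : P B ≤ ENNReal.ofReal (4 * (2 * (Q₁ : ℝ) + 1) ^ d * p) := by
    rw [← ofReal_measureReal (μ := P) (s := B)]
    exact ENNReal.ofReal_le_ofReal hB1
  rw [shift_lt (gl σ) b, ← shift_lt (gl σ) (a + sm ℓ k), ← hP, ← hB]
  exact hB2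

end Pool.Agent.LE.H17C
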